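import Pool.Agent.Helper93.PL.St
import Pool.Agent.Helper82.PV.M_Smo

/-!
# Project PL, module Kmu (k-th moment, upper bound)
-/

set_option autoImplicit false

namespace Pool.Agent.Helper97.PL

open Finset
open Pool.Agent.Helper61.PV Pool.Agent.Helper93.PL
open Pool.Agent.Helper82.PV (thz_nn ev_lin_add apb_sum mem_Bx)

lemma card_Bx {d : ℕ} (A : Fin (d + 1) → ℤ) (h : Fin (d + 1) → ℕ) : #(Bx A h) = ∏ i, h i := by
  unfold Bx
  rw [Fintype.card_piFinset]
  refine prod_congr rfl fun i _ => ?_
  rw [Int.card_Ico]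
  omega

theorem hKmu (hTra : StTra) (hKdg : StKdg) (hIte : StIte) : Pool.Agent.Helper93.PL.StKmu := by
  intro k d M B W m x E F A h hyp
  obtain ⟨hk, hmono, hm, hMB, hB, hW, hE, hA, hsize, -⟩ := hyp
  obtain ⟨t, b, ht, hb⟩ := hKdg k d B M m hk hmono hm hMB
  set R : ℕ := (M + 2) ^ k * B with hR
  have hNpos : ∀ j : Fin k, 1 ≤ Nj d B m j := fun j =>
    Nat.mul_pos (pow_pos (by have := (hm j).1; omega) _) (by omega)
  set T : (Fin (d + 1) → ℤ) → Fin k → (Fin k → ℕ) → ℝ := fun a j u =>
    thz (ev (lin W F a) (m j) + W * (t j u + (qd m j : ℤ) * u j)) with hT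
  set C : Fin k → ℝ := fun j => Mt W d B m j + E j with hC
  have hC0 : ∀ j, 0 ≤ C j := by
    intro j
    have h1 : 0 ≤ Mt W d B m j := by unfold Mt; positivity
    have h2 := hE j
    simp only [hC]
    linarith
  set G : (Fin (d + 1) → ℤ) → ℝ := fun g => ∏ j, thz (ev (lin W F g) (m j)) with hG
  have hG0 : ∀ g, 0 ≤ G g := fun g => prod_nonneg fun j _ => thz_nn _
  set P : Finset (Fin (d + 1) → ℤ) := Bx (fun i => A i - R) (fun i => h i + 2 * R) with hP
  set U : Finset (Fin k → ℕ) := Fintype.piFinset (fun j => range (Nj d B m j)) with hU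
  have hUc : ((#U : ℕ) : ℝ) = ∏ j : Fin k, (Nj d B m j : ℝ) := by
    rw [hU, Fintype.card_piFinset]
    push_cast
    simp only [card_range]
  have hPc : ((#P : ℕ) : ℝ) = ∏ i, ((h i + 2 * R : ℕ) : ℝ) := by
    rw [hP, card_Bx]
    push_cast
    rfl
  -- the bound for one translate class
  have key : ∀ a ∈ P, ∑ u ∈ U, ∏ j, T a j u ≤ ∏ j, C j := by
    intro a ha
    rw [hP, mem_Bx] at ha
    refine (hIte k (Nj d B m) (T a) C (fun _ => 0) hNpos (fun j u => thz_nn _) ?_ hC0
      (fun _ => le_rfl)).1 ?_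
    · intro j u u' huu
      simp only [hT]
      rw [ht j u u' (fun i hi => huu i hi.le), huu j le_rfl]
    · intro j u hu
      have hu0 : ∀ i, Function.update u j 0 i < Nj d B m i := by
        intro i
        by_cases hi : i = j
        · subst hi
          rw [Function.update_self]
          exact hNpos i
        · rw [Function.update_of_ne hi]
          exact hu i
      obtain ⟨e1, e2⟩ := hb (Function.update u j 0) hu0
      have hval : ∀ v ∈ range (Nj d B m j), T a j (Function.update u j v) =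
          thz ((ev (lin W F a) (m j) + W * t j (Function.update u j 0)) +
            ((W * qd m j : ℕ) : ℤ) * v) := by
        intro v _
        simp only [hT]
        have h1 : t j (Function.update u j v) = t j (Function.update u j 0) := by
          refine ht j _ _ fun i hi => ?_
          rw [Function.update_of_ne hi.ne, Function.update_of_ne hi.ne]
        rw [h1, Function.update_self]
        congr 1
        push_cast
        ring
      rw [sum_congr rfl hval]
      have hwin : ∀ i, A i - (2 * R : ℕ) ≤ (a + b (Function.update u j 0)) i ∧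
          (a + b (Function.update u j 0)) i < A i + h i + (2 * R : ℕ) := by
        intro i
        have h1 := ha i
        have h2 := abs_le.mp (e1 i)
        simp only [Pi.add_apply]
        push_cast at h1 h2 ⊢
        constructor <;> [linarith [h1.1, h2.1]; linarith [h1.2, h2.2]]
      obtain ⟨s1, s2⟩ := hsize _ hwin j
      rw [ev_lin_add, e2 j, Function.update_self, Nat.cast_zero, mul_zero, add_zero] at s1 s2
      have hM0 : (0 : ℤ) ≤ M := Nat.cast_nonneg M
      have h3 := apb_sum (hA j) (ev (lin W F a) (m j) + W * t j (Function.update u j 0))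
        (by linarith) (by push_cast at s2 ⊢; linarith)
      exact h3
  -- translates
  have tr : ∀ u ∈ U, ∑ g ∈ Bx A h, G g ≤ ∑ a ∈ P, ∏ j, T a j u := by
    intro u hu
    rw [hU, Fintype.mem_piFinset] at hu
    have hu' : ∀ j : Fin k, u j < m j ^ (d - (j : ℕ)) * B := fun j => mem_range.mp (hu j)
    obtain ⟨e1, e2⟩ := hb u hu'
    refine ((hTra d R A (b u) h G hG0 e1).1).trans (le_of_eq ?_)
    refine sum_congr rfl fun a _ => ?_
    simp only [hG, hT]
    refine prod_congr rfl fun j _ => ?_
    rw [ev_lin_add, e2 j]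
  calc (∏ j : Fin k, (Nj d B m j : ℝ)) * ∑ g ∈ Bx A h, G g
      = ∑ _u ∈ U, ∑ g ∈ Bx A h, G g := by
        rw [sum_const, nsmul_eq_mul, hUc]
    _ ≤ ∑ u ∈ U, ∑ a ∈ P, ∏ j, T a j u := sum_le_sum tr
    _ = ∑ a ∈ P, ∑ u ∈ U, ∏ j, T a j u := sum_comm
    _ ≤ ∑ _a ∈ P, ∏ j, C j := sum_le_sum key
    _ = (∏ i, ((h i + 2 * R : ℕ) : ℝ)) * ∏ j, C j := by
        rw [sum_const, nsmul_eq_mul, hPc]

end Pool.Agent.Helper97.PL
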